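import Mathlib.CategoryTheory.Monoidal.Rigid.Basic
import Mathlib.CategoryTheory.Monoidal.Braided.Basic
import Mathlib.CategoryTheory.Preadditive.AdditiveFunctor
import Mathlib.Algebra.Category.ModuleCat.Basic
import Mathlib.LinearAlgebra.Trace
import Mathlib.FieldTheory.Minpoly.Field

/-!
# Realisations of tensor categories of motives over a finite field
-/

open CategoryTheory Limits MonoidalCategory

universe v u w w'

namespace Pool.Agent.TH133.AB

/-- The trace of an endomorphism, an endomorphism of the unit object. -/
def tr {A : Type u} [Category.{v} A] [MonoidalCategory A] [BraidedCategory A]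
    [∀ X : A, HasRightDual X] {X : A} (f : X ⟶ X) : 𝟙_ A ⟶ 𝟙_ A :=
  η_ X (Xᘁ) ≫ f ▷ (Xᘁ) ≫ (β_ X (Xᘁ)).hom ≫ ε_ X (Xᘁ)

/-- A realisation of a tensor category of motives over a finite field, with coefficients in the
field `K`: the even and the odd part of the cohomology of a motive, and the Frobenius
endomorphism of a motive. -/
structure Realisation (A : Type u) [Category.{v} A] [Preadditive A] [MonoidalCategory A]
    [BraidedCategory A] [∀ X : A, HasRightDual X] (K : Type w) [Field K] where
  /-- the cohomology in even degrees -/
  ev : A ⥤ ModuleCat.{w'} K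
  /-- the cohomology in odd degrees -/
  odd : A ⥤ ModuleCat.{w'} K
  [evAdditive : ev.Additive]
  [oddAdditive : odd.Additive]
  [evFinite : ∀ X : A, Module.Finite K (ev.obj X)]
  [oddFinite : ∀ X : A, Module.Finite K (odd.obj X)]
  /-- the cohomology of the unit object is not zero -/
  unit_ne : ¬ IsZero (ev.obj (𝟙_ A))
  /-- a morphism which is zero in cohomology remains zero after tensoring (Künneth formula) -/
  tensor : ∀ {X Y : A} (f : X ⟶ Y) (Z : A), ev.map f = 0 → odd.map f = 0 →
    ev.map (Z ◁ f) = 0 ∧ odd.map (Z ◁ f) = 0
  /-- the trace formula -/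
  trace_formula : ∀ {X : A} (f : X ⟶ X), LinearMap.trace K _ (ev.map (tr f)).hom =
    LinearMap.trace K _ (ev.map f).hom - LinearMap.trace K _ (odd.map f).hom
  /-- the Frobenius endomorphism of a motive -/
  frob : ∀ X : A, X ⟶ X
  frob_naturality : ∀ {X Y : A} (f : X ⟶ Y), frob X ≫ f = f ≫ frob Y
  /-- weights: Frobenius has no common eigenvalues on the even and odd cohomology of motives -/
  weights : ∀ X Y : A, IsCoprime (minpoly K (ev.map (frob X)).hom)
    (minpoly K (odd.map (frob Y)).hom)

attribute [instance] Realisation.evAdditive Realisation.oddAdditive Realisation.evFinite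
  Realisation.oddFinite

end Pool.Agent.TH133.AB
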