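import Pool.Agent.TH133.AB.Defs

/-!
# The Tate conjecture for a realisation
-/

open CategoryTheory Limits MonoidalCategory

universe v u w w'

namespace Pool.Agent.TH133.AB

variable {A : Type u} [Category.{v} A] [Preadditive A] [MonoidalCategory A]
  [BraidedCategory A] [∀ X : A, HasRightDual X] {K : Type w} [Field K]

/-- Tate conjecture: the classes invariant under Frobenius are spanned by the classes of morphisms
from the unit object. -/
def Realisation.Tate (R : Realisation.{v, u, w, w'} A K) : Prop :=
  ∀ (X : A) (x : R.ev.obj X), (R.ev.map (R.frob X)).hom x = x →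
    x ∈ Submodule.span K
      {y : R.ev.obj X | ∃ (z : 𝟙_ A ⟶ X) (c : R.ev.obj (𝟙_ A)), y = (R.ev.map z).hom c}

end Pool.Agent.TH133.AB
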