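import Pool.Agent.TH133.AB.Unit

/-!
# Additivity of Frobenius traces in short exact sequences
-/

open CategoryTheory Limits MonoidalCategory Polynomial

universe v u w w'

namespace Pool.Agent.TH133.AB

set_option linter.style.haveILetI false
set_option linter.unusedSectionVars false

variable {A : Type u} [Category.{v} A] [MonoidalCategory A] [BraidedCategory A]
  [∀ X : A, HasRightDual X]

namespace Realisation

section basic

variable [Preadditive A] {K : Type w} [Field K] (R : Realisation.{v, u, w, w'} A K)

/-- Frobenius on the even cohomology. -/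
def fe (X : A) : Module.End K (R.ev.obj X) := (R.ev.map (R.frob X)).hom

/-- Frobenius on the odd cohomology. -/
def fo (X : A) : Module.End K (R.odd.obj X) := (R.odd.map (R.frob X)).hom

/-- The powers of Frobenius. -/
def fpow (X : A) : ℕ → (X ⟶ X)
  | 0 => 𝟙 X
  | n + 1 => fpow X n ≫ R.frob X

lemma fpow_naturality {X Y : A} (f : X ⟶ Y) (n : ℕ) : R.fpow X n ≫ f = f ≫ R.fpow Y n := by
  induction n with
  | zero => simp [fpow]
  | succ n ih =>
    have h : R.frob X ≫ f = f ≫ R.frob Y := R.frob_naturality f
    simp only [fpow, Category.assoc]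
    rw [h, ← Category.assoc, ih, Category.assoc]

lemma ev_fpow (X : A) (n : ℕ) : (R.ev.map (R.fpow X n)).hom = R.fe X ^ n := by
  induction n with
  | zero => simp [fpow, Module.End.one_eq_id]
  | succ n ih =>
    have : (R.ev.map (R.fpow X (n + 1))).hom =
        (R.ev.map (R.frob X)).hom ∘ₗ (R.ev.map (R.fpow X n)).hom := by
      rw [fpow, Functor.map_comp, ModuleCat.hom_comp]
    rw [this, ih, pow_succ', Module.End.mul_eq_comp]
    rfl

lemma odd_fpow (X : A) (n : ℕ) : (R.odd.map (R.fpow X n)).hom = R.fo X ^ n := by
  induction n with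
  | zero => simp [fpow, Module.End.one_eq_id]
  | succ n ih =>
    have : (R.odd.map (R.fpow X (n + 1))).hom =
        (R.odd.map (R.frob X)).hom ∘ₗ (R.odd.map (R.fpow X n)).hom := by
      rw [fpow, Functor.map_comp, ModuleCat.hom_comp]
    rw [this, ih, pow_succ', Module.End.mul_eq_comp]
    rfl

/-- The difference of the traces of `P(F)` on the even and the odd cohomology. -/
noncomputable def trPoly (X : A) : K[X] →ₗ[K] K :=
  (LinearMap.trace K (R.ev.obj X)) ∘ₗ (aeval (R.fe X)).toLinearMap -
    (LinearMap.trace K (R.odd.obj X)) ∘ₗ (aeval (R.fo X)).toLinearMap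

lemma trPoly_apply (X : A) (P : K[X]) : R.trPoly X P =
    LinearMap.trace K (R.ev.obj X) (aeval (R.fe X) P) -
      LinearMap.trace K (R.odd.obj X) (aeval (R.fo X) P) := rfl

end basic

variable [Abelian A] [MonoidalPreadditive A] {K : Type w} [Field K]
  (R : Realisation.{v, u, w, w'} A K)

/-- The traces of `P(F)` are additive. -/
theorem trPoly_add {S : ShortComplex A} (hS : S.ShortExact) (P : K[X]) :
    R.trPoly S.X₂ P = R.trPoly S.X₁ P + R.trPoly S.X₃ P := by
  have h : R.trPoly S.X₂ = R.trPoly S.X₁ + R.trPoly S.X₃ := by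
    apply Polynomial.lhom_ext'
    intro n
    ext
    simp only [LinearMap.comp_apply, LinearMap.add_apply, trPoly_apply]
    have h1 := tr_add hS (R.fpow S.X₁ n) (R.fpow S.X₂ n) (R.fpow S.X₃ n)
      (R.fpow_naturality S.f n) (R.fpow_naturality S.g n)
    have h2 := congrArg (fun e => LinearMap.trace K _ (R.ev.map e).hom) h1
    simp only [Functor.map_add, ModuleCat.hom_add, map_add] at h2
    rw [R.trace_formula, R.trace_formula, R.trace_formula, R.ev_fpow, R.ev_fpow, R.ev_fpow,
      R.odd_fpow, R.odd_fpow, R.odd_fpow] at h2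
    simp only [aeval_monomial, map_one, one_mul]
    linear_combination h2
  rw [h, LinearMap.add_apply]

end Realisation

end Pool.Agent.TH133.AB
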