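import Pool.Agent.TH133.AB.Dim

/-!
# Abelian categories of motives over finite fields: nilpotence
-/

open CategoryTheory Limits MonoidalCategory Polynomial

universe v u w w'

namespace Pool.Agent.TH133.AB

set_option linter.style.haveILetI false
set_option linter.unusedSectionVars false

variable {A : Type u} [Category.{v} A] [MonoidalCategory A] [BraidedCategory A]
  [∀ X : A, HasRightDual X] [Abelian A] [MonoidalPreadditive A] {K : Type w} [Field K]
  (R : Realisation.{v, u, w, w'} A K)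

namespace Realisation

/-- Separation of even and odd weights. -/
lemma exists_separation (X Y Z : A) : ∃ P Q : K[X], P + Q = 1 ∧
    (aeval (R.fe X) Q = 0 ∧ aeval (R.fe Y) Q = 0 ∧ aeval (R.fe Z) Q = 0) ∧
    (aeval (R.fo X) P = 0 ∧ aeval (R.fo Y) P = 0 ∧ aeval (R.fo Z) P = 0) := by
  have h : ∀ U : A, IsCoprime (minpoly K (R.fe X) * minpoly K (R.fe Y) * minpoly K (R.fe Z))
      (minpoly K (R.fo U)) := fun U =>
    ((R.weights X U).mul_left (R.weights Y U)).mul_left (R.weights Z U)
  obtain ⟨a, b, hab⟩ := ((h X).mul_right (h Y)).mul_right (h Z)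
  refine ⟨b * (minpoly K (R.fo X) * minpoly K (R.fo Y) * minpoly K (R.fo Z)),
    a * (minpoly K (R.fe X) * minpoly K (R.fe Y) * minpoly K (R.fe Z)), ?_, ?_, ?_⟩
  · rw [add_comm, hab]
  · refine ⟨?_, ?_, ?_⟩ <;> simp
  · refine ⟨?_, ?_, ?_⟩ <;> simp

/-- Dimensions of the even cohomology are additive. -/
theorem finrank_ev_add [CharZero K] {S : ShortComplex A} (hS : S.ShortExact) :
    Module.finrank K (R.ev.obj S.X₂) =
      Module.finrank K (R.ev.obj S.X₁) + Module.finrank K (R.ev.obj S.X₃) := by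
  obtain ⟨P, Q, hPQ, ⟨h1, h2, h3⟩, h4, h5, h6⟩ := R.exists_separation S.X₁ S.X₂ S.X₃
  have hP : P = 1 - Q := by rw [← hPQ]; ring
  have h := R.trPoly_add hS P
  rw [trPoly_apply, trPoly_apply, trPoly_apply, h4, h5, h6, hP] at h
  simp only [map_sub, map_one, h1, h2, h3, sub_zero, map_zero, LinearMap.trace_one] at h
  exact_mod_cast h

/-- Dimensions of the odd cohomology are additive. -/
theorem finrank_odd_add [CharZero K] {S : ShortComplex A} (hS : S.ShortExact) :
    Module.finrank K (R.odd.obj S.X₂) =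
      Module.finrank K (R.odd.obj S.X₁) + Module.finrank K (R.odd.obj S.X₃) := by
  obtain ⟨P, Q, hPQ, ⟨h1, h2, h3⟩, h4, h5, h6⟩ := R.exists_separation S.X₁ S.X₂ S.X₃
  have hQ : Q = 1 - P := by rw [← hPQ]; ring
  have h := R.trPoly_add hS Q
  rw [trPoly_apply, trPoly_apply, trPoly_apply, h1, h2, h3, hQ] at h
  simp only [map_sub, map_one, h4, h5, h6, sub_zero, map_zero, zero_sub,
    LinearMap.trace_one] at h
  have h' : (Module.finrank K (R.odd.obj S.X₂) : K) =
      Module.finrank K (R.odd.obj S.X₁) + Module.finrank K (R.odd.obj S.X₃) := by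
    linear_combination -h
  exact_mod_cast h'

/-- The total dimension of the cohomology. -/
noncomputable def dim (X : A) : ℕ :=
  Module.finrank K (R.ev.obj X) + Module.finrank K (R.odd.obj X)

theorem dim_add [CharZero K] {S : ShortComplex A} (hS : S.ShortExact) :
    R.dim S.X₂ = R.dim S.X₁ + R.dim S.X₃ := by
  simp only [dim, R.finrank_ev_add hS, R.finrank_odd_add hS]
  ring

lemma isZero_of_finrank {V : ModuleCat.{w'} K} [Module.Finite K V]
    (h : Module.finrank K V = 0) : IsZero V := by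
  haveI := Module.finrank_zero_iff.1 h
  exact ModuleCat.isZero_of_subsingleton V

lemma finrank_of_isZero {V : ModuleCat.{w'} K} (h : IsZero V) : Module.finrank K V = 0 := by
  haveI := ModuleCat.subsingleton_of_isZero h
  exact Module.finrank_zero_of_subsingleton

lemma dim_eq_zero_iff (X : A) : R.dim X = 0 ↔ IsZero (R.ev.obj X) ∧ IsZero (R.odd.obj X) := by
  rw [dim, Nat.add_eq_zero_iff]
  exact ⟨fun h => ⟨isZero_of_finrank h.1, isZero_of_finrank h.2⟩,
    fun h => ⟨finrank_of_isZero h.1, finrank_of_isZero h.2⟩⟩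

/-- The dimension is invariant under isomorphisms. -/
lemma dim_iso {X Y : A} (e : X ≅ Y) : R.dim X = R.dim Y := by
  simp only [dim]
  rw [(R.ev.mapIso e).toLinearEquiv.finrank_eq, (R.odd.mapIso e).toLinearEquiv.finrank_eq]

/-- **No phantoms.** -/
theorem isZero_of_dim [CharZero K]
    (hconn : ∀ e : 𝟙_ A ⟶ 𝟙_ A, e ≫ e = e → e = 0 ∨ e = 𝟙 (𝟙_ A)) {M : A}
    (h : R.dim M = 0) : IsZero M := by
  by_contra hM
  haveI := epi_evaluation hconn hM
  obtain ⟨h1, h2⟩ := (R.dim_eq_zero_iff M).1 h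
  have h3 : R.ev.map (Mᘁ ◁ 𝟙 M) = 0 ∧ R.odd.map (Mᘁ ◁ 𝟙 M) = 0 :=
    R.tensor (𝟙 M) (Mᘁ) (h1.eq_of_src _ _) (h2.eq_of_src _ _)
  rw [whiskerLeft_id, CategoryTheory.Functor.map_id, CategoryTheory.Functor.map_id,
    ← IsZero.iff_id_eq_zero, ← IsZero.iff_id_eq_zero] at h3
  have h4 := (R.dim_eq_zero_iff _).2 h3
  have hS : (ShortComplex.mk (kernel.ι (ε_ M (Mᘁ))) (ε_ M (Mᘁ))
      (kernel.condition _)).ShortExact :=
    { exact := ShortComplex.exact_kernel _
      mono_f := inferInstance
      epi_g := inferInstance }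
  have h5 := R.dim_add hS
  have h6 : R.dim (𝟙_ A) = 0 := by
    simp only at h5
    omega
  exact R.unit_ne ((R.dim_eq_zero_iff _).1 h6).1

/-- A morphism that is surjective and does not change the dimension is an isomorphism. -/
lemma isIso_of_epi [CharZero K]
    (hconn : ∀ e : 𝟙_ A ⟶ 𝟙_ A, e ≫ e = e → e = 0 ∨ e = 𝟙 (𝟙_ A)) {X Y : A} (e : X ⟶ Y)
    [Epi e] (h : R.dim X ≤ R.dim Y) : IsIso e := by
  have hS : (ShortComplex.mk (kernel.ι e) e (kernel.condition _)).ShortExact :=
    { exact := ShortComplex.exact_kernel _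
      mono_f := inferInstance
      epi_g := inferInstance }
  have h5 := R.dim_add hS
  have h6 : R.dim (kernel e) = 0 := by
    simp only at h5
    omega
  haveI : Mono e := Preadditive.mono_of_isZero_kernel _ (R.isZero_of_dim hconn h6)
  exact isIso_of_mono_of_epi e

lemma isIso_of_mono [CharZero K]
    (hconn : ∀ e : 𝟙_ A ⟶ 𝟙_ A, e ≫ e = e → e = 0 ∨ e = 𝟙 (𝟙_ A)) {X Y : A} (e : X ⟶ Y)
    [Mono e] (h : R.dim Y ≤ R.dim X) : IsIso e := by
  have hS : (ShortComplex.mk e (cokernel.π e) (cokernel.condition _)).ShortExact :=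
    { exact := ShortComplex.exact_cokernel _
      mono_f := inferInstance
      epi_g := inferInstance }
  have h5 := R.dim_add hS
  have h6 : R.dim (cokernel e) = 0 := by
    simp only at h5
    omega
  haveI : Epi e := Preadditive.epi_of_isZero_cokernel _ (R.isZero_of_dim hconn h6)
  exact isIso_of_mono_of_epi e

end Realisation

/-- The powers of an endomorphism. -/
def iter {C : Type u} [Category.{v} C] {M : C} (f : M ⟶ M) : ℕ → (M ⟶ M)
  | 0 => 𝟙 M
  | n + 1 => iter f n ≫ f

lemma iter_add {C : Type u} [Category.{v} C] {M : C} (f : M ⟶ M) (m n : ℕ) :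
    iter f (m + n) = iter f m ≫ iter f n := by
  induction n with
  | zero => simp [iter]
  | succ n ih => rw [← Nat.add_assoc, iter, ih, iter, Category.assoc]

/-- **Nilpotence.** -/
theorem Realisation.nilpotent [CharZero K]
    (hconn : ∀ e : 𝟙_ A ⟶ 𝟙_ A, e ≫ e = e → e = 0 ∨ e = 𝟙 (𝟙_ A)) {M : A} (f : M ⟶ M)
    (h1 : R.ev.map f = 0) (h2 : R.odd.map f = 0) : ∃ n : ℕ, iter f n = 0 := by
  -- choose `n ≥ 1` such that the dimension of the image of `f^n` is minimal
  let d : ℕ → ℕ := fun n => R.dim (image (iter f (n + 1)))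
  obtain ⟨n, hn⟩ : ∃ n, ∀ m, d n ≤ d m := by
    obtain ⟨n, hn⟩ := Nat.sInf_mem (Set.range_nonempty d)
    exact ⟨n, fun m => hn ▸ Nat.sInf_le ⟨m, rfl⟩⟩
  let g := iter f (n + 1)
  let e := factorThruImage g
  let m := image.ι g
  have hem : e ≫ m = g := image.fac g
  let h := m ≫ e
  let e' := factorThruImage h
  let m' := image.ι h
  have hem' : e' ≫ m' = h := image.fac h
  have hgg : g ≫ g = iter f ((n + 1 + n) + 1) := by
    rw [Nat.add_assoc, iter_add]
  have hcomm : (e ≫ e') ≫ (m' ≫ m) = iter f ((n + 1 + n) + 1) := by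
    rw [← hgg, Category.assoc, ← Category.assoc e', hem']
    simp only [h, Category.assoc]
    rw [hem, ← Category.assoc, hem]
  haveI : Epi (e ≫ e') := epi_comp _ _
  haveI : Mono (m' ≫ m) := mono_comp _ _
  have hiso := image.isoStrongEpiMono (e ≫ e') (m' ≫ m) hcomm
  have hd : R.dim (image g) ≤ R.dim (image h) := by
    rw [R.dim_iso hiso]
    exact hn _
  haveI : IsIso e' := R.isIso_of_epi hconn e' hd
  haveI : IsIso m' := R.isIso_of_mono hconn m' hd
  haveI : IsIso h := by
    rw [← hem']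
    infer_instance
  have hhh : h ≫ h = m ≫ g ≫ e := by
    simp only [h, Category.assoc]
    rw [← Category.assoc e, hem]
  have hz : ∀ F : A ⥤ ModuleCat.{w'} K, F.Additive → F.map f = 0 → IsZero (F.obj (image g)) := by
    intro F _ hF
    have h3 : F.map g = 0 := by
      simp only [g, iter]
      rw [CategoryTheory.Functor.map_comp, hF, Limits.comp_zero]
    have h4 : F.map (h ≫ h) = 0 := by
      rw [hhh, CategoryTheory.Functor.map_comp, CategoryTheory.Functor.map_comp, h3, Limits.zero_comp,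
        Limits.comp_zero]
    rw [IsZero.iff_id_eq_zero, ← CategoryTheory.Functor.map_id, ← IsIso.inv_hom_id (h ≫ h),
      CategoryTheory.Functor.map_comp, h4, Limits.comp_zero]
  have h5 : IsZero (image g) := R.isZero_of_dim hconn
    ((R.dim_eq_zero_iff _).2 ⟨hz R.ev inferInstance h1, hz R.odd inferInstance h2⟩)
  refine ⟨n + 1, ?_⟩
  change g = 0
  rw [← hem, h5.eq_of_tgt e 0, Limits.zero_comp]

end Pool.Agent.TH133.AB
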