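import Pool.Agent.TH133.AB.Nil
import Pool.Agent.TH133.AB.DefsTate
import Mathlib.LinearAlgebra.Eigenspace.Minpoly

/-!
# Abelian categories of motives over finite fields and the Tate conjecture
-/

open CategoryTheory Limits MonoidalCategory Polynomial

universe v u w w'

namespace Pool.Agent.TH133.AB

set_option linter.style.haveILetI false
set_option linter.unusedSectionVars false

section linear

variable {K : Type w} [Field K] {V : Type w'} [AddCommGroup V] [Module K V]

lemma aeval_of_fixed (F : Module.End K V) (P : K[X]) {x : V} (hx : F x = x) :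
    aeval F P x = P.eval 1 • x := by
  induction P using Polynomial.induction_on' with
  | add p q hp hq => simp [hp, hq, add_smul]
  | monomial n c =>
    have h : ∀ n : ℕ, (F ^ n) x = x := by
      intro n
      induction n with
      | zero => simp
      | succ n ih => rw [pow_succ', Module.End.mul_apply, ih, hx]
    rw [aeval_monomial, Module.End.mul_apply, h n, Module.algebraMap_end_apply]
    simp

/-- The projector on the generalised eigenspace for the eigenvalue `1`. -/
lemma trace_projector [FiniteDimensional K V] (F : Module.End K V) (P : K[X])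
    (hidem : aeval F (P * P) = aeval F P) :
    LinearMap.trace K V (aeval F P) = (Module.finrank K (LinearMap.range (aeval F P)) : K) := by
  have h1 : IsIdempotentElem (aeval F P) := by
    rw [IsIdempotentElem, ← map_mul, hidem]
  exact (LinearMap.IsIdempotentElem.isProj_range _ h1).trace

end linear

variable {A : Type u} [Category.{v} A] [MonoidalCategory A] [BraidedCategory A]
  [∀ X : A, HasRightDual X] [Abelian A] [MonoidalPreadditive A] {K : Type w} [Field K]
  (R : Realisation.{v, u, w, w'} A K)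

namespace Realisation

/-- A common projector on the eigenvalue `1`. -/
lemma exists_projector (h1 : R.frob (𝟙_ A) = 𝟙 (𝟙_ A)) (X Y : A) :
    ∃ (P : K[X]) (a : ℕ), P.eval 1 = 1 ∧
      (∀ U : A, U = X ∨ U = Y ∨ U = 𝟙_ A → aeval (R.fo U) P = 0) ∧
      (∀ U : A, U = X ∨ U = Y ∨ U = 𝟙_ A → aeval (R.fe U) (P * P) = aeval (R.fe U) P) ∧
      (∀ U : A, U = X ∨ U = Y ∨ U = 𝟙_ A → aeval (R.fe U) ((Polynomial.X - 1) ^ a * P) = 0) := by
  have hne : Nontrivial (R.ev.obj (𝟙_ A)) := by
    by_contra hcon
    rw [not_nontrivial_iff_subsingleton] at hcon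
    exact R.unit_ne (ModuleCat.isZero_of_subsingleton _)
  have hm1 : minpoly K (R.fe (𝟙_ A)) = Polynomial.X - 1 := by
    have : R.fe (𝟙_ A) = 1 := by
      rw [fe, h1, CategoryTheory.Functor.map_id]
      rfl
    rw [this, minpoly.one]
  have hco : ∀ U : A, IsCoprime (Polynomial.X - 1 : K[X]) (minpoly K (R.fo U)) := fun U => by
    rw [← hm1]
    exact R.weights (𝟙_ A) U
  let p : K[X] := minpoly K (R.fe X) * minpoly K (R.fe Y) * minpoly K (R.fe (𝟙_ A))
  let q : K[X] := minpoly K (R.fo X) * minpoly K (R.fo Y) * minpoly K (R.fo (𝟙_ A))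
  have hp0 : p ≠ 0 := mul_ne_zero (mul_ne_zero
    (minpoly.ne_zero (Algebra.IsIntegral.isIntegral _))
    (minpoly.ne_zero (Algebra.IsIntegral.isIntegral _)))
    (minpoly.ne_zero (Algebra.IsIntegral.isIntegral _))
  obtain ⟨h, hh, hnd⟩ := Polynomial.exists_eq_pow_rootMultiplicity_mul_and_not_dvd p hp0 1
  rw [map_one] at hh hnd
  let a := rootMultiplicity 1 p
  have ha : a ≠ 0 := by
    intro ha0
    have hd : (Polynomial.X - 1 : K[X]) ∣ p := by
      rw [← hm1]
      exact dvd_mul_left _ _
    have hd' : (Polynomial.X - 1 : K[X]) ∣ h := by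
      have : p = h := by rw [hh, show rootMultiplicity 1 p = 0 from ha0, pow_zero, one_mul]
      exact this ▸ hd
    exact hnd hd'
  have hirr : Irreducible (Polynomial.X - 1 : K[X]) := by
    have := Polynomial.irreducible_X_sub_C (1 : K)
    rwa [map_one] at this
  have hch : IsCoprime (Polynomial.X - 1 : K[X]) h := (hirr.coprime_iff_not_dvd).2 hnd
  have hcq : IsCoprime (Polynomial.X - 1 : K[X]) q :=
    ((hco X).mul_right (hco Y)).mul_right (hco (𝟙_ A))
  obtain ⟨α, β, hαβ⟩ := (hch.mul_right hcq).pow_left (m := a)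
  have hpe : ∀ U : A, U = X ∨ U = Y ∨ U = 𝟙_ A → aeval (R.fe U) p = 0 := by
    rintro U (rfl | rfl | rfl) <;> simp [p]
  have hqo : ∀ U : A, U = X ∨ U = Y ∨ U = 𝟙_ A → aeval (R.fo U) q = 0 := by
    rintro U (rfl | rfl | rfl) <;> simp [q]
  refine ⟨β * (h * q), a, ?_, ?_, ?_, ?_⟩
  · have h2 := congrArg (Polynomial.eval 1) hαβ
    simp only [eval_add, eval_mul, eval_pow, eval_sub, eval_X, eval_one, sub_self,
      zero_pow ha, mul_zero, zero_add] at h2
    simp only [eval_mul]
    exact h2
  · intro U hU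
    rw [map_mul, map_mul, hqo U hU, mul_zero, mul_zero]
  · intro U hU
    have h3 : β * (h * q) * (β * (h * q)) = β * (h * q) - (β * q * α) * p := by
      have h4 : p = (Polynomial.X - 1) ^ a * h := hh
      rw [h4]
      linear_combination (β * (h * q)) * hαβ
    rw [h3, map_sub, map_mul _ _ p, hpe U hU, mul_zero, sub_zero]
  · intro U hU
    have h3 : (Polynomial.X - 1) ^ a * (β * (h * q)) = (β * q) * p := by
      have h4 : p = (Polynomial.X - 1) ^ a * h := hh
      rw [h4]
      ring
    rw [h3, map_mul, hpe U hU, mul_zero]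

end Realisation

/-- Non-zero morphisms from the unit object are monomorphisms. -/
lemma mono_of_unit (hconn : ∀ e : 𝟙_ A ⟶ 𝟙_ A, e ≫ e = e → e = 0 ∨ e = 𝟙 (𝟙_ A)) {X : A}
    (z : 𝟙_ A ⟶ X) (hz : z ≠ 0) : Mono z := by
  have hS : (ShortComplex.mk (kernel.ι z) (cokernel.π (kernel.ι z))
      (cokernel.condition _)).ShortExact :=
    { exact := ShortComplex.exact_cokernel _
      mono_f := inferInstance
      epi_g := inferInstance }
  rcases unit_simple hconn hS with h | h
  · exact Preadditive.mono_of_isZero_kernel _ h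
  · exfalso
    apply hz
    haveI : Epi (kernel.ι z) := Preadditive.epi_of_isZero_cokernel _ h
    rw [← cancel_epi (kernel.ι z), kernel.condition, Limits.comp_zero]

/-- Non-zero morphisms to the unit object are epimorphisms. -/
lemma epi_of_unit (hconn : ∀ e : 𝟙_ A ⟶ 𝟙_ A, e ≫ e = e → e = 0 ∨ e = 𝟙 (𝟙_ A)) {X : A}
    (w : X ⟶ 𝟙_ A) (hw : w ≠ 0) : Epi w := by
  have hS : (ShortComplex.mk (image.ι w) (cokernel.π (image.ι w))
      (cokernel.condition _)).ShortExact :=
    { exact := ShortComplex.exact_cokernel _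
      mono_f := inferInstance
      epi_g := inferInstance }
  rcases unit_simple hconn hS with h | h
  · exfalso
    apply hw
    rw [← image.fac w, h.eq_of_tgt (factorThruImage _) 0, Limits.zero_comp]
  · haveI : Epi (image.ι w) := Preadditive.epi_of_isZero_cokernel _ h
    rw [← image.fac w]
    infer_instance

lemma isIso_of_unit (hconn : ∀ e : 𝟙_ A ⟶ 𝟙_ A, e ≫ e = e → e = 0 ∨ e = 𝟙 (𝟙_ A))
    (w : 𝟙_ A ⟶ 𝟙_ A) (hw : w ≠ 0) : IsIso w := by
  haveI := epi_of_unit hconn w hw
  haveI := mono_of_unit hconn w hw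
  exact isIso_of_mono_of_epi w

/-- **Cohomologically trivial cycles vanish.** -/
theorem Realisation.eq_zero_of_unit [CharZero K]
    (hconn : ∀ e : 𝟙_ A ⟶ 𝟙_ A, e ≫ e = e → e = 0 ∨ e = 𝟙 (𝟙_ A))
    (h1 : R.frob (𝟙_ A) = 𝟙 (𝟙_ A)) (hT : R.Tate) {N : A} (z : 𝟙_ A ⟶ N)
    (hz : R.ev.map z = 0) : z = 0 := by
  induction hn : R.dim N using Nat.strong_induction_on generalizing N with
  | _ n IH =>
    by_contra hz0
    haveI := mono_of_unit hconn z hz0
    have hdim1 : R.dim (𝟙_ A) ≠ 0 := fun h => R.unit_ne ((R.dim_eq_zero_iff _).1 h).1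
    -- the class of every cycle on `N` is zero
    have hall : ∀ z' : 𝟙_ A ⟶ N, R.ev.map z' = 0 := by
      intro z'
      by_cases hz' : z' = 0
      · rw [hz', Functor.map_zero]
      haveI := mono_of_unit hconn z' hz'
      have hS' : (ShortComplex.mk z' (cokernel.π z') (cokernel.condition _)).ShortExact :=
        { exact := ShortComplex.exact_cokernel _
          mono_f := inferInstance
          epi_g := inferInstance }
      have hd := R.dim_add hS'
      simp only at hd
      have h2 : z ≫ cokernel.π z' = 0 := by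
        refine IH (R.dim (cokernel z')) (by omega) _ ?_ rfl
        rw [CategoryTheory.Functor.map_comp, hz, Limits.zero_comp]
      let e := Abelian.monoLift z' z h2
      have he : e ≫ z' = z := Abelian.monoLift_comp z' z h2
      have he0 : e ≠ 0 := by
        intro h0
        exact hz0 (by rw [← he, h0, Limits.zero_comp])
      haveI := isIso_of_unit hconn e he0
      rw [← cancel_epi (R.ev.map e), ← CategoryTheory.Functor.map_comp, he, hz,
        Limits.comp_zero]
    -- so Frobenius has no invariants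
    have hker : ∀ x : R.ev.obj N, R.fe N x = x → x = 0 := by
      intro x hx
      have h2 : x ∈ (⊥ : Submodule K (R.ev.obj N)) := by
        refine (Submodule.span_le.2 ?_) (hT N x hx)
        rintro _ ⟨z', c, rfl⟩
        rw [hall z']
        exact (Submodule.mem_bot K).2 rfl
      exact (Submodule.mem_bot K).1 h2
    have hinj : Function.Injective ⇑(R.fe N - 1 : Module.End K (R.ev.obj N)) := by
      rw [injective_iff_map_eq_zero]
      intro x hx
      apply hker
      rwa [LinearMap.sub_apply, Module.End.one_apply, sub_eq_zero] at hx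
    have hS : (ShortComplex.mk z (cokernel.π z) (cokernel.condition _)).ShortExact :=
      { exact := ShortComplex.exact_cokernel _
        mono_f := inferInstance
        epi_g := inferInstance }
    obtain ⟨P, a, hP1, hPo, hPi, hPa⟩ := R.exists_projector h1 N (cokernel z)
    have hrange : LinearMap.range (aeval (R.fe N) P) = ⊥ := by
      rw [eq_bot_iff]
      rintro _ ⟨x, rfl⟩
      have h2 : ((R.fe N - 1) ^ a) (aeval (R.fe N) P x) = 0 := by
        have h3 := LinearMap.congr_fun (hPa N (Or.inl rfl)) x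
        rw [map_mul, map_pow, map_sub, aeval_X, map_one, Module.End.mul_apply] at h3
        exact h3
      have h4 : Function.Injective ⇑((R.fe N - 1) ^ a : Module.End K (R.ev.obj N)) := by
        rw [Module.End.coe_pow]
        exact hinj.iterate a
      exact (Submodule.mem_bot K).2 (h4 (by rw [h2, map_zero]))
    have h3 := R.trPoly_add hS P
    simp only [trPoly_apply] at h3
    rw [hPo _ (Or.inl rfl), hPo _ (Or.inr (Or.inl rfl)), hPo _ (Or.inr (Or.inr rfl)),
      map_zero, map_zero, map_zero, sub_zero, sub_zero, sub_zero,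
      trace_projector _ _ (hPi _ (Or.inl rfl)), trace_projector _ _ (hPi _ (Or.inr (Or.inl rfl))),
      trace_projector _ _ (hPi _ (Or.inr (Or.inr rfl)))] at h3
    have h4 : Module.finrank K (LinearMap.range (aeval (R.fe N) P)) =
        Module.finrank K (LinearMap.range (aeval (R.fe (𝟙_ A)) P)) +
          Module.finrank K (LinearMap.range (aeval (R.fe (cokernel z)) P)) := by
      exact_mod_cast h3
    have h5 : Module.finrank K (LinearMap.range (aeval (R.fe (𝟙_ A)) P)) = 0 := by
      rw [hrange, finrank_bot] at h4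
      omega
    have h6 : LinearMap.range (aeval (R.fe (𝟙_ A)) P) = ⊥ := Submodule.finrank_eq_zero.1 h5
    have hfix1 : R.fe (𝟙_ A) = 1 := by
      rw [fe, h1, CategoryTheory.Functor.map_id]
      rfl
    apply R.unit_ne
    have : Subsingleton (R.ev.obj (𝟙_ A)) := by
      refine ⟨fun x y => ?_⟩
      have h10 : ∀ x : R.ev.obj (𝟙_ A), x = 0 := by
        intro x
        have h11 : x ∈ LinearMap.range (aeval (R.fe (𝟙_ A)) P) :=
          ⟨x, by rw [aeval_of_fixed _ _ (by rw [hfix1, Module.End.one_apply]), hP1, one_smul]⟩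
        rw [h6] at h11
        exact (Submodule.mem_bot K).1 h11
      rw [h10 x, h10 y]
    exact ModuleCat.isZero_of_subsingleton _

/-- **The realisation is faithful.** -/
theorem Realisation.faithful [CharZero K]
    (hconn : ∀ e : 𝟙_ A ⟶ 𝟙_ A, e ≫ e = e → e = 0 ∨ e = 𝟙 (𝟙_ A))
    (h1 : R.frob (𝟙_ A) = 𝟙 (𝟙_ A)) (hT : R.Tate) {X Y : A}
    (f : X ⟶ Y) (hf : R.ev.map f = 0) (hf' : R.odd.map f = 0) : f = 0 := by
  have h2 : tensorRightHomEquiv (𝟙_ A) X (Xᘁ) Y ((λ_ X).hom ≫ f) = 0 := by
    apply R.eq_zero_of_unit hconn h1 hT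
    have h3 : f ▷ Xᘁ = (β_ X (Xᘁ)).hom ≫ Xᘁ ◁ f ≫ (β_ Y (Xᘁ)).inv := by
      rw [← BraidedCategory.braiding_naturality_left_assoc, Iso.hom_inv_id, Category.comp_id]
    rw [tensorRightHomEquiv_naturality, h3, CategoryTheory.Functor.map_comp,
      CategoryTheory.Functor.map_comp, CategoryTheory.Functor.map_comp,
      (R.tensor f (Xᘁ) hf hf').1, Limits.zero_comp, Limits.comp_zero, Limits.comp_zero]
  have h3 : (λ_ X).hom ≫ f = 0 := by
    apply (tensorRightHomEquiv (𝟙_ A) X (Xᘁ) Y).injective
    rw [h2]
    simp [tensorRightHomEquiv]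
  rw [← cancel_epi (λ_ X).hom, h3, Limits.comp_zero]

end Pool.Agent.TH133.AB
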