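import Pool.Agent.TH133.AB.Defs
import Mathlib.CategoryTheory.Abelian.Basic
import Mathlib.CategoryTheory.Monoidal.Rigid.Braided
import Mathlib.CategoryTheory.Monoidal.Preadditive
import Mathlib.Algebra.Homology.ShortComplex.ShortExact
import Mathlib.CategoryTheory.Abelian.Exact

/-!
# Traces in rigid abelian tensor categories
-/

open CategoryTheory Limits MonoidalCategory

universe v u

namespace Pool.Agent.TH133.AB

set_option linter.style.haveILetI false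
set_option linter.unusedSectionVars false

variable {A : Type u} [Category.{v} A] [MonoidalCategory A] [BraidedCategory A]
  [∀ X : A, HasRightDual X]

lemma mate_lemma {T X Y Z : A} (φ : X ⟶ Y) (f : T ⟶ Z ⊗ Yᘁ) :
    (tensorRightHomEquiv T X (Xᘁ) Z).symm (f ≫ Z ◁ φᘁ) =
      T ◁ φ ≫ (tensorRightHomEquiv T Y (Yᘁ) Z).symm f := by
  simp only [tensorRightHomEquiv, Equiv.coe_fn_symm_mk]
  have h := rightAdjointMate_comp_evaluation φ
  rw [comp_whiskerRight, Category.assoc, associator_naturality_middle_assoc,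
    ← whiskerLeft_comp_assoc, h, whisker_exchange_assoc, associator_naturality_right_assoc,
    ← whiskerLeft_comp_assoc]

section exact

lemma mono_whiskerRight {X Y : A} (i : X ⟶ Y) [Mono i] (Z : A) : Mono (i ▷ Z) := by
  letI := BraidedCategory.exactPairing_swap Z (Zᘁ)
  haveI := Functor.preservesMonomorphisms_of_adjunction (tensorRightAdjunction (Zᘁ) Z)
  exact (tensorRight Z).map_mono i

lemma mono_whiskerLeft {X Y : A} (i : X ⟶ Y) [Mono i] (Z : A) : Mono (Z ◁ i) := by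
  haveI := Functor.preservesMonomorphisms_of_adjunction (tensorLeftAdjunction Z (Zᘁ))
  exact (tensorLeft Z).map_mono i

lemma epi_whiskerRight {X Y : A} (p : X ⟶ Y) [Epi p] (Z : A) : Epi (p ▷ Z) := by
  haveI := Functor.preservesEpimorphisms_of_adjunction (tensorRightAdjunction Z (Zᘁ))
  exact (tensorRight Z).map_epi p

lemma epi_whiskerLeft {X Y : A} (p : X ⟶ Y) [Epi p] (Z : A) : Epi (Z ◁ p) := by
  letI := BraidedCategory.exactPairing_swap Z (Zᘁ)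
  haveI := Functor.preservesEpimorphisms_of_adjunction (tensorLeftAdjunction (Zᘁ) Z)
  exact (tensorLeft Z).map_epi p

end exact

lemma mate_lemma' {T X Y Z : A} (φ : X ⟶ Y) (g : Xᘁ ⊗ T ⟶ Z) :
    tensorLeftHomEquiv T Y (Yᘁ) Z (φᘁ ▷ T ≫ g) = tensorLeftHomEquiv T X (Xᘁ) Z g ≫ φ ▷ Z := by
  simp only [tensorLeftHomEquiv, Equiv.coe_fn_mk]
  have h := coevaluation_comp_rightAdjointMate φ
  rw [whiskerLeft_comp, ← associator_naturality_middle_assoc, ← comp_whiskerRight_assoc, h,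
    comp_whiskerRight_assoc, associator_naturality_left_assoc, ← whisker_exchange]
  simp only [Category.assoc]

section zero

variable [Preadditive A] [MonoidalPreadditive A]

lemma homEquiv_symm_zero (X Y Y' Z : A) [ExactPairing Y Y'] :
    (tensorRightHomEquiv X Y Y' Z).symm 0 = 0 := by
  simp [tensorRightHomEquiv]

lemma homEquiv_zero' (X Y Y' Z : A) [ExactPairing Y Y'] :
    tensorLeftHomEquiv X Y Y' Z 0 = 0 := by
  simp [tensorLeftHomEquiv]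

lemma homEquiv_symm_zero' (X Y Y' Z : A) [ExactPairing Y Y'] :
    (tensorLeftHomEquiv X Y Y' Z).symm 0 = 0 := by
  simp [tensorLeftHomEquiv]

/-- The dual of a monomorphism is an epimorphism. -/
lemma epi_mate {X Y : A} (i : X ⟶ Y) [Mono i] : Epi (iᘁ) := by
  apply Preadditive.epi_of_cancel_zero
  intro Z g hg
  haveI := mono_whiskerRight i Z
  have h1 := mate_lemma' i ((ρ_ _).hom ≫ g)
  rw [rightUnitor_naturality_assoc, hg, comp_zero, homEquiv_zero'] at h1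
  have h2 : tensorLeftHomEquiv (𝟙_ A) X (Xᘁ) Z ((ρ_ _).hom ≫ g) = 0 := by
    rw [← cancel_mono (i ▷ Z), ← h1, zero_comp]
  have h3 : (ρ_ _).hom ≫ g = 0 := by
    apply (tensorLeftHomEquiv (𝟙_ A) X (Xᘁ) Z).injective
    rw [h2, homEquiv_zero']
  rw [← cancel_epi (ρ_ _).hom, h3, comp_zero]

/-- The dual of an epimorphism is a monomorphism. -/
lemma mono_mate {X Y : A} (p : X ⟶ Y) [Epi p] : Mono (pᘁ) := by
  apply Preadditive.mono_of_cancel_zero
  intro T f hf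
  haveI := epi_whiskerLeft p T
  have h1 := mate_lemma p (f ≫ (λ_ _).inv)
  rw [Category.assoc, ← leftUnitor_inv_naturality, reassoc_of% hf, zero_comp,
    homEquiv_symm_zero] at h1
  have h2 : (tensorRightHomEquiv T Y (Yᘁ) (𝟙_ A)).symm (f ≫ (λ_ _).inv) = 0 := by
    rw [← cancel_epi (T ◁ p), ← h1, comp_zero]
  have h3 : f ≫ (λ_ _).inv = 0 := by
    apply (tensorRightHomEquiv T Y (Yᘁ) (𝟙_ A)).symm.injective
    rw [h2, homEquiv_symm_zero]
  rw [← cancel_mono (λ_ _).inv, h3, zero_comp]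

end zero

variable [Abelian A] [MonoidalPreadditive A]

/-- Tensoring a short exact sequence is right exact. -/
lemma exists_desc_whiskerLeft {S : ShortComplex A} (hS : S.ShortExact) {T Z : A}
    (k : T ⊗ S.X₂ ⟶ Z) (hk : T ◁ S.f ≫ k = 0) : ∃ k' : T ⊗ S.X₃ ⟶ Z, T ◁ S.g ≫ k' = k := by
  letI := BraidedCategory.exactPairing_swap T (Tᘁ)
  haveI := hS.epi_g
  have h1 : S.f ≫ tensorLeftHomEquiv S.X₂ (Tᘁ) T Z k = 0 := by
    apply (tensorLeftHomEquiv S.X₁ (Tᘁ) T Z).symm.injective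
    rw [tensorLeftHomEquiv_symm_naturality, Equiv.symm_apply_apply, hk, homEquiv_symm_zero']
  refine ⟨(tensorLeftHomEquiv S.X₃ (Tᘁ) T Z).symm (hS.exact.desc _ h1), ?_⟩
  rw [← tensorLeftHomEquiv_symm_naturality, hS.exact.g_desc, Equiv.symm_apply_apply]

/-- Tensoring the dual of a short exact sequence is left exact. -/
lemma exists_lift_whiskerLeft_mate {S : ShortComplex A} (hS : S.ShortExact) {T Z : A}
    (c : T ⟶ Z ⊗ (S.X₂)ᘁ) (hc : c ≫ Z ◁ (S.f)ᘁ = 0) :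
    ∃ d : T ⟶ Z ⊗ (S.X₃)ᘁ, d ≫ Z ◁ (S.g)ᘁ = c := by
  have h1 : T ◁ S.f ≫ (tensorRightHomEquiv T S.X₂ ((S.X₂)ᘁ) Z).symm c = 0 := by
    rw [← mate_lemma, hc, homEquiv_symm_zero]
  obtain ⟨k, hk⟩ := exists_desc_whiskerLeft hS _ h1
  refine ⟨tensorRightHomEquiv T S.X₃ ((S.X₃)ᘁ) Z k, ?_⟩
  apply (tensorRightHomEquiv T S.X₂ ((S.X₂)ᘁ) Z).symm.injective
  rw [mate_lemma, Equiv.symm_apply_apply, hk]

/-- **Additivity of traces.** -/
theorem tr_add {S : ShortComplex A} (hS : S.ShortExact) (f₁ : S.X₁ ⟶ S.X₁) (f₂ : S.X₂ ⟶ S.X₂)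
    (f₃ : S.X₃ ⟶ S.X₃) (h₁ : f₁ ≫ S.f = S.f ≫ f₂) (h₂ : f₂ ≫ S.g = S.g ≫ f₃) :
    tr f₂ = tr f₁ + tr f₃ := by
  haveI := hS.mono_f
  haveI := hS.epi_g
  haveI := epi_mate S.f
  haveI := mono_mate S.g
  haveI := epi_whiskerLeft ((S.f)ᘁ) S.X₁
  haveI := mono_whiskerLeft ((S.g)ᘁ) S.X₃
  let a := η_ S.X₂ ((S.X₂)ᘁ) ≫ f₂ ▷ _
  let a₁ := η_ S.X₁ ((S.X₁)ᘁ) ≫ f₁ ▷ _
  let a₃ := η_ S.X₃ ((S.X₃)ᘁ) ≫ f₃ ▷ _
  have ha₁ : a ≫ S.X₂ ◁ (S.f)ᘁ = a₁ ≫ S.f ▷ _ := by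
    simp only [a, a₁, Category.assoc]
    rw [← whisker_exchange, coevaluation_comp_rightAdjointMate_assoc, ← comp_whiskerRight, ← h₁,
      comp_whiskerRight]
  have ha₃ : a ≫ S.g ▷ _ = a₃ ≫ S.X₃ ◁ (S.g)ᘁ := by
    simp only [a, a₃, Category.assoc]
    rw [← comp_whiskerRight, h₂, comp_whiskerRight, ← whisker_exchange,
      coevaluation_comp_rightAdjointMate_assoc]
  let t := pullback.fst a₁ (S.X₁ ◁ (S.f)ᘁ)
  let b := pullback.snd a₁ (S.X₁ ◁ (S.f)ᘁ)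
  have hb : t ≫ a₁ = b ≫ S.X₁ ◁ (S.f)ᘁ := pullback.condition
  haveI : Epi t := by
    change Epi (pullback.fst a₁ (S.X₁ ◁ (S.f)ᘁ))
    infer_instance
  have e1 : (t ≫ a) ≫ S.X₂ ◁ (S.f)ᘁ = (t ≫ a₁) ≫ S.f ▷ _ := by
    rw [Category.assoc, ha₁, ← Category.assoc]
  have e2 : (b ≫ S.f ▷ _) ≫ S.X₂ ◁ (S.f)ᘁ = (b ≫ S.X₁ ◁ (S.f)ᘁ) ≫ S.f ▷ _ := by
    rw [Category.assoc, Category.assoc, whisker_exchange]
  have e3 : (b ≫ S.f ▷ _) ≫ S.g ▷ ((S.X₂)ᘁ) = 0 := by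
    rw [Category.assoc, ← comp_whiskerRight, S.zero, MonoidalPreadditive.zero_whiskerRight,
      comp_zero]
  obtain ⟨d, hd⟩ := exists_lift_whiskerLeft_mate hS (t ≫ a - b ≫ S.f ▷ _) (by
    rw [Preadditive.sub_comp, e1, e2, hb, sub_self])
  have e4 : (d ≫ S.g ▷ _) ≫ S.X₃ ◁ (S.g)ᘁ = (d ≫ S.X₂ ◁ (S.g)ᘁ) ≫ S.g ▷ _ := by
    rw [Category.assoc, Category.assoc, whisker_exchange]
  have hd₃ : d ≫ S.g ▷ _ = t ≫ a₃ := by
    rw [← cancel_mono (S.X₃ ◁ (S.g)ᘁ), e4, hd, Preadditive.sub_comp, e3, sub_zero,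
      Category.assoc, ha₃, ← Category.assoc]
  have e₁ : b ≫ S.f ▷ _ ≫ (β_ S.X₂ ((S.X₂)ᘁ)).hom ≫ ε_ S.X₂ ((S.X₂)ᘁ) = t ≫ tr f₁ := by
    have := rightAdjointMate_comp_evaluation S.f
    rw [BraidedCategory.braiding_naturality_left_assoc, ← this,
      ← BraidedCategory.braiding_naturality_right_assoc, ← Category.assoc b, ← hb]
    simp only [a₁, tr, Category.assoc]
  have e₃ : d ≫ S.X₂ ◁ (S.g)ᘁ ≫ (β_ S.X₂ ((S.X₂)ᘁ)).hom ≫ ε_ S.X₂ ((S.X₂)ᘁ) =
      t ≫ tr f₃ := by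
    have := rightAdjointMate_comp_evaluation S.g
    rw [BraidedCategory.braiding_naturality_right_assoc, this,
      ← BraidedCategory.braiding_naturality_left_assoc, ← Category.assoc d, hd₃]
    simp only [a₃, tr, Category.assoc]
  rw [← cancel_epi t, Preadditive.comp_add, ← e₁, ← e₃, ← Category.assoc d, hd,
    Preadditive.sub_comp]
  simp only [a, tr, Category.assoc]
  abel

end Pool.Agent.TH133.AB
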