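import Pool.Agent.TH133.AB.Trace

/-!
# The unit object of a rigid abelian tensor category
-/

open CategoryTheory Limits MonoidalCategory

universe v u

namespace Pool.Agent.TH133.AB

set_option linter.style.haveILetI false
set_option linter.unusedSectionVars false

variable {A : Type u} [Category.{v} A] [MonoidalCategory A] [BraidedCategory A]
  [∀ X : A, HasRightDual X] [Abelian A] [MonoidalPreadditive A]

lemma isZero_tensor (X : A) {Y : A} (h : IsZero Y) : IsZero (X ⊗ Y) := by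
  rw [IsZero.iff_id_eq_zero, ← whiskerLeft_id, (IsZero.iff_id_eq_zero _).1 h,
    MonoidalPreadditive.whiskerLeft_zero]

lemma isZero_swap {X Y : A} (h : IsZero (X ⊗ Y)) : IsZero (Y ⊗ X) := h.of_iso (β_ Y X)

lemma isZero_tensor' {X : A} (Y : A) (h : IsZero X) : IsZero (X ⊗ Y) :=
  isZero_swap (isZero_tensor Y h)

lemma isZero_of_retract {X Y : A} (i : X ⟶ Y) (p : Y ⟶ X) (h : i ≫ p = 𝟙 X) (hY : IsZero Y) :
    IsZero X := by
  rw [IsZero.iff_id_eq_zero, ← h, hY.eq_of_tgt i 0, zero_comp]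

/-- If `U ⊗ V = 0` then `U ⊗ Vᘁ = 0`. -/
lemma isZero_dual {U V : A} (h : IsZero (U ⊗ V)) : IsZero (U ⊗ Vᘁ) := by
  have hip : ((ρ_ (Vᘁ)).inv ≫ Vᘁ ◁ η_ V (Vᘁ)) ≫
      ((α_ (Vᘁ) V (Vᘁ)).inv ≫ ε_ V (Vᘁ) ▷ Vᘁ ≫ (λ_ (Vᘁ)).hom) = 𝟙 (Vᘁ) := by
    have h := ExactPairing.coevaluation_evaluation V (Vᘁ)
    rw [Category.assoc]
    have h2 : Vᘁ ◁ η_ V (Vᘁ) ≫ (α_ (Vᘁ) V (Vᘁ)).inv ≫ ε_ V (Vᘁ) ▷ Vᘁ ≫ (λ_ (Vᘁ)).hom =
        (ρ_ (Vᘁ)).hom := by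
      rw [← Category.assoc (α_ (Vᘁ) V (Vᘁ)).inv, ← Category.assoc (Vᘁ ◁ _), h,
        Category.assoc, Iso.inv_hom_id, Category.comp_id]
    rw [h2, Iso.inv_hom_id]
  refine isZero_of_retract (U ◁ ((ρ_ (Vᘁ)).inv ≫ Vᘁ ◁ η_ V (Vᘁ)))
    (U ◁ ((α_ (Vᘁ) V (Vᘁ)).inv ≫ ε_ V (Vᘁ) ▷ Vᘁ ≫ (λ_ (Vᘁ)).hom)) ?_ ?_
  · rw [← whiskerLeft_comp, hip, whiskerLeft_id]
  · have e : U ⊗ (Vᘁ ⊗ (V ⊗ Vᘁ)) ≅ (U ⊗ V) ⊗ (Vᘁ ⊗ Vᘁ) :=
      (whiskerLeftIso U ((β_ (Vᘁ) (V ⊗ Vᘁ)) ≪≫ α_ V (Vᘁ) (Vᘁ))) ≪≫ (α_ U V (Vᘁ ⊗ Vᘁ)).symm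
    exact (isZero_tensor' _ h).of_iso e

/-- Tensoring a short exact sequence is left exact. -/
lemma exists_lift_whiskerRight {S : ShortComplex A} (hS : S.ShortExact) {T Z : A}
    (c : T ⟶ S.X₂ ⊗ Z) (hc : c ≫ S.g ▷ Z = 0) : ∃ d : T ⟶ S.X₁ ⊗ Z, d ≫ S.f ▷ Z = c := by
  letI := BraidedCategory.exactPairing_swap Z (Zᘁ)
  haveI := hS.mono_f
  obtain ⟨k, rfl⟩ := (tensorRightHomEquiv T (Zᘁ) Z S.X₂).surjective c
  have h1 : k ≫ S.g = 0 := by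
    apply (tensorRightHomEquiv T (Zᘁ) Z S.X₃).injective
    rw [tensorRightHomEquiv_naturality, hc]
    simp [tensorRightHomEquiv]
  refine ⟨tensorRightHomEquiv T (Zᘁ) Z S.X₁ (hS.exact.lift k h1), ?_⟩
  rw [← tensorRightHomEquiv_naturality, hS.exact.lift_f]

/-- The unit object has no proper subobjects. -/
theorem unit_simple (hconn : ∀ e : 𝟙_ A ⟶ 𝟙_ A, e ≫ e = e → e = 0 ∨ e = 𝟙 (𝟙_ A)) {U V : A}
    {u : U ⟶ 𝟙_ A} {v : 𝟙_ A ⟶ V} {w : u ≫ v = 0} (hS : (ShortComplex.mk u v w).ShortExact) :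
    IsZero U ∨ IsZero V := by
  haveI : Mono u := hS.mono_f
  haveI : Epi v := hS.epi_g
  haveI := epi_whiskerLeft v U
  haveI := mono_whiskerRight u V
  have h1 : U ◁ v ≫ u ▷ V = 0 := by
    rw [← cancel_mono (λ_ V).hom, Category.assoc, zero_comp, ← Category.assoc,
      whisker_exchange, Category.assoc, leftUnitor_naturality, ← Category.assoc]
    have h2 : u ▷ 𝟙_ A ≫ (λ_ (𝟙_ A)).hom = (ρ_ U).hom ≫ u := by
      rw [unitors_equal, rightUnitor_naturality]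
    rw [h2, Category.assoc, w, comp_zero]
  have h2 : u ▷ V = 0 := by
    rw [← cancel_epi (U ◁ v), h1, comp_zero]
  have h3 : IsZero (U ⊗ V) := by
    rw [IsZero.iff_id_eq_zero, ← cancel_mono (u ▷ V), h2, comp_zero, zero_comp]
  have h4 : IsZero (U ⊗ Vᘁ) := isZero_dual h3
  have hmono : Mono (v ▷ Vᘁ) := by
    apply Preadditive.mono_of_cancel_zero
    intro T c hc
    obtain ⟨d, hd⟩ := exists_lift_whiskerRight hS c hc
    rw [← hd, h4.eq_of_tgt d 0, zero_comp]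
  haveI := epi_whiskerRight v (Vᘁ)
  haveI : IsIso (v ▷ Vᘁ) := isIso_of_mono_of_epi _
  -- the section
  let k : 𝟙_ A ⟶ 𝟙_ A ⊗ Vᘁ := η_ V (Vᘁ) ≫ inv (v ▷ Vᘁ)
  let s : V ⟶ 𝟙_ A := (λ_ V).inv ≫ (tensorRightHomEquiv (𝟙_ A) V (Vᘁ) (𝟙_ A)).symm k
  have hs : s ≫ v = 𝟙 V := by
    have h5 : (tensorRightHomEquiv (𝟙_ A) V (Vᘁ) (𝟙_ A)).symm k ≫ v = (λ_ V).hom := by
      apply (tensorRightHomEquiv (𝟙_ A) V (Vᘁ) V).injective
      rw [tensorRightHomEquiv_naturality, Equiv.apply_symm_apply]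
      simp only [k, Category.assoc, IsIso.inv_hom_id, Category.comp_id]
      have h6 : (ρ_ (𝟙_ A)).inv ≫ (λ_ (𝟙_ A)).hom = 𝟙 _ := by
        rw [unitors_equal, Iso.inv_hom_id]
      have h7 : tensorRightHomEquiv (𝟙_ A) V (Vᘁ) V (λ_ V).hom =
          ((ρ_ (𝟙_ A)).inv ≫ (λ_ (𝟙_ A)).hom) ≫ η_ V (Vᘁ) := by
        simp [tensorRightHomEquiv]
      rw [h7, h6, Category.id_comp]
    simp only [s, Category.assoc, h5, Iso.inv_hom_id]
  rcases hconn (v ≫ s) (by rw [Category.assoc, ← Category.assoc s, hs, Category.id_comp]) with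
    h0 | h0
  · right
    rw [IsZero.iff_id_eq_zero, ← cancel_epi v, comp_zero, ← hs, ← Category.assoc, h0,
      zero_comp]
  · left
    rw [IsZero.iff_id_eq_zero, ← cancel_mono u, zero_comp, Category.id_comp]
    have h6 : u ≫ (v ≫ s) = u := by rw [h0, Category.comp_id]
    rw [← h6, ← Category.assoc, w, zero_comp]

/-- The evaluation of a non-zero object is an epimorphism. -/
theorem epi_evaluation (hconn : ∀ e : 𝟙_ A ⟶ 𝟙_ A, e ≫ e = e → e = 0 ∨ e = 𝟙 (𝟙_ A)) {M : A}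
    (hM : ¬ IsZero M) : Epi (ε_ M (Mᘁ)) := by
  have hS : (ShortComplex.mk (image.ι (ε_ M (Mᘁ))) (cokernel.π (image.ι (ε_ M (Mᘁ))))
      (cokernel.condition _)).ShortExact :=
    { exact := ShortComplex.exact_cokernel _
      mono_f := inferInstance
      epi_g := inferInstance }
  rcases unit_simple hconn hS with h | h
  · exfalso
    apply hM
    have h5 : ε_ M (Mᘁ) = 0 := by
      rw [← image.fac (ε_ M (Mᘁ)), h.eq_of_tgt (factorThruImage _) 0, zero_comp]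
    have h6 := ExactPairing.evaluation_coevaluation M (Mᘁ)
    rw [h5, MonoidalPreadditive.whiskerLeft_zero, comp_zero, comp_zero] at h6
    rw [IsZero.iff_id_eq_zero]
    have h8 : 𝟙 M = (λ_ M).inv ≫ ((λ_ M).hom ≫ (ρ_ M).inv) ≫ (ρ_ M).hom := by simp
    rw [h8, ← h6, zero_comp, comp_zero]
  · haveI : Epi (image.ι (ε_ M (Mᘁ))) := Preadditive.epi_of_isZero_cokernel _ h
    rw [← image.fac (ε_ M (Mᘁ))]
    infer_instance

end Pool.Agent.TH133.AB
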